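import Pool.Agent.Helper68_BAN.Stmt2

set_option autoImplicit false

/-! Squad BAN, module CAP2: the image of the cap is null, affine version. -/

namespace Pool.Agent.BAN.H51

open MeasureTheory Filter Topology Set
open scoped NNReal

/-- Preimages of null sets under real linear isomorphisms, in the form needed. -/
theorem null_of_preimage2 {E F : Type} [NormedAddCommGroup E] [NormedSpace ℝ E]
    [FiniteDimensional ℝ E] [MeasurableSpace E] [BorelSpace E] [NormedAddCommGroup F]
    [NormedSpace ℝ F] [FiniteDimensional ℝ F] [MeasurableSpace F] [BorelSpace F]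
    (L : E ≃L[ℝ] F) (m : Measure E) [m.IsAddHaarMeasure] (μ : Measure F) [μ.IsAddHaarMeasure]
    (S : Set F) (h : m (L ⁻¹' S) = 0) : μ S = 0 := by
  have hm : (m.map L).IsAddHaarMeasure := ContinuousLinearEquiv.isAddHaarMeasure_map L m
  have h1 : μ ≪ m.map L := Measure.absolutelyContinuous_isAddHaarMeasure μ (m.map L)
  apply h1
  have h2 := (L.toHomeomorph.toMeasurableEquiv).map_apply (μ := m) S
  have h3 : m.map (L.toHomeomorph.toMeasurableEquiv) = m.map L := rfl
  rw [h3] at h2
  rw [h2]
  exact h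

/-- The shifted cone over an orbit is null. -/
theorem shifted_cone_null {V : Type} [NormedAddCommGroup V] [InnerProductSpace ℝ V]
    [FiniteDimensional ℝ V] [MeasurableSpace V] [BorelSpace V] (μ : Measure V)
    [μ.IsAddHaarMeasure] (K : Set (V →L[ℝ] V)) (v w0 : V) (hv : v ≠ 0)
    (hiso : ∀ g ∈ K, ∀ x, ‖g x‖ = ‖x‖)
    (h : μ {x | ∃ t : ℝ, ∃ κ ∈ K, x = t • κ v} = 0) :
    μ {x | ∃ t : ℝ, 0 ≤ t ∧ ∃ κ ∈ K, x = t • (κ v + w0)} = 0 := by
  have hnt : Nontrivial V := ⟨v, 0, hv⟩
  have hnv : ‖v‖ ≠ 0 := norm_ne_zero_iff.2 hv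
  let F : V → V := fun x => x + (‖x‖ * ‖v‖⁻¹) • w0
  let s : Set V := {x | ∃ t : ℝ, ∃ κ ∈ K, x = t • κ v} \ {0}
  have hs : μ s = 0 := measure_mono_null sdiff_subset h
  have hF : DifferentiableOn ℝ F s := by
    intro x hx
    have hx0 : x ≠ 0 := hx.2
    apply DifferentiableAt.differentiableWithinAt
    apply DifferentiableAt.add differentiableAt_id
    apply DifferentiableAt.smul_const
    exact (differentiableAt_id.norm ℝ hx0).mul_const _
  have himg : μ (F '' s) = 0 :=
    addHaar_image_eq_zero_of_differentiableOn_of_addHaar_eq_zero μ hF hs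
  have hne : (𝓝[≠] (0 : V)).NeBot := Module.punctured_nhds_neBot ℝ V 0
  have h0 : μ {(0 : V)} = 0 := measure_singleton 0
  refine measure_mono_null (t := F '' s ∪ {0}) ?_ (measure_union_null himg h0)
  rintro x ⟨t, ht, κ, hκ, rfl⟩
  rcases ht.eq_or_lt with ht0 | htpos
  · right
    rw [← ht0, zero_smul]
    rfl
  · left
    refine ⟨t • κ v, ⟨⟨t, κ, hκ, rfl⟩, ?_⟩, ?_⟩
    · intro h1
      have h2 : t • κ v = 0 := h1
      have h3 : ‖κ v‖ = 0 := by
        rcases smul_eq_zero.1 h2 with h4 | h4
        · exact absurd h4 htpos.ne'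
        · rw [h4, norm_zero]
      rw [hiso κ hκ v] at h3
      exact hnv h3
    · show t • κ v + (‖t • κ v‖ * ‖v‖⁻¹) • w0 = t • (κ v + w0)
      rw [norm_smul, hiso κ hκ v, Real.norm_of_nonneg ht, mul_assoc, mul_inv_cancel₀ hnv, mul_one,
        smul_add]

theorem cap2 (hORB : ORBStmt) (hBAS : BAS2Stmt) : CAP2Stmt := by
  intro V X _ _ _ _ _ _ _ _ μ _ φ Φ hD e b0 v he heb hv hu
  obtain ⟨hK, c, C, hc, hC, hφ, hΦ, hPPb, hPPs⟩ := hBAS V X φ Φ hD
  have hee : inner ℝ e e = (1 : ℝ) := by
    rw [real_inner_self_eq_norm_sq, he]; norm_num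
  have hene : ‖-e‖ = 1 := by rw [norm_neg, he]
  have hort : ∀ A ∈ PR φ Φ (-e), ∀ w, inner ℝ e (A w) = (0 : ℝ) := by
    intro A hA w
    have := hA.2 w
    rwa [inner_neg_left, neg_eq_zero] at this
  let mV : MeasurableSpace V := borel V
  have hbor : BorelSpace V := ⟨rfl⟩
  have hprop : ProperSpace V := FiniteDimensional.proper ℝ V
  have hCo := hORB ℝ V (Measure.addHaar : Measure V) (SymR φ) v hK hu
  obtain ⟨A0, hA0⟩ := hD.non (-e) hene
  have hA0inj : ∀ w, A0 w = 0 → w = 0 := by
    intro w hw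
    have h1 := (hPPb (-e) A0 hene hA0).1 w
    rw [hw, norm_zero] at h1
    have h2 : ‖w‖ ≤ 0 := by
      by_contra h
      push Not at h
      have := mul_pos hc h
      linarith
    exact norm_le_zero_iff.1 h2
  have hA0inj' : ∀ a b, A0 a = A0 b → a = b := by
    intro a b hab
    have := hA0inj (a - b) (by rw [map_sub, hab, sub_self])
    exact sub_eq_zero.1 this
  have hA0surj : ∀ x, inner ℝ e x = (0 : ℝ) → ∃ w, A0 w = x := by
    intro x hx
    exact hPPs (-e) A0 hene hA0 x (by rw [inner_neg_left, hx, neg_zero])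
  obtain ⟨w0, hw0⟩ := hA0surj b0 heb
  let f : ℝ × V →ₗ[ℝ] X :=
    { toFun := fun p => p.1 • e + A0 p.2
      map_add' := by
        intro p q
        simp only [Prod.fst_add, Prod.snd_add, add_smul, map_add]
        abel
      map_smul' := by
        intro r p
        simp only [Prod.smul_fst, Prod.smul_snd, smul_eq_mul,
          RingHom.id_apply, map_smul, smul_add, mul_smul] }
  have hf : ∀ p, f p = p.1 • e + A0 p.2 := fun p => rfl
  have hfin : ∀ p, inner ℝ e (f p) = p.1 := by
    intro p
    rw [hf, inner_add_right, inner_smul_right, hee, hort A0 hA0, mul_one, add_zero]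
  have hbij : Function.Bijective f := by
    constructor
    · rw [← LinearMap.ker_eq_bot, LinearMap.ker_eq_bot']
      intro p hp
      have h1 := hfin p
      rw [hp, inner_zero_right] at h1
      have h3 := hf p
      rw [hp, ← h1, zero_smul, zero_add] at h3
      exact Prod.ext h1.symm (hA0inj _ h3.symm)
    · intro x
      obtain ⟨w, hw⟩ := hA0surj (x - (inner ℝ e x : ℝ) • e) (by
        rw [inner_sub_right, inner_smul_right, hee, mul_one, sub_self])
      refine ⟨((inner ℝ e x : ℝ), w), ?_⟩
      rw [hf]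
      show (inner ℝ e x : ℝ) • e + A0 w = x
      rw [hw]
      abel
  let L : (ℝ × V) ≃L[ℝ] X := (LinearEquiv.ofBijective f hbij).toContinuousLinearEquiv
  have hL : ∀ p, L p = f p := fun p => rfl
  have hcone := shifted_cone_null (Measure.addHaar : Measure V) (SymR φ) v w0 hv hK.iso hCo
  apply null_of_preimage2 L ((volume : Measure ℝ).prod (Measure.addHaar : Measure V)) μ
  refine measure_mono_null (t := (univ : Set ℝ) ×ˢ
    {x : V | ∃ t : ℝ, 0 ≤ t ∧ ∃ κ ∈ SymR φ, x = t • (κ v + w0)}) ?_ ?_
  · rintro p ⟨r, t, ht, A, hA, hp⟩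
    refine ⟨trivial, ?_⟩
    rw [hL] at hp
    have h1 := hfin p
    rw [hp, inner_add_right, inner_smul_right, inner_smul_right, inner_add_right, hee,
      hort A hA v, heb, add_zero, mul_one, mul_zero, add_zero] at h1
    have h2 : A0 p.2 = t • (A v + b0) := by
      have h3 := hf p
      rw [hp, ← h1] at h3
      exact (add_left_cancel h3).symm
    -- the element of the group
    have hex : ∀ w, ∃ u, A0 u = A w := fun w => hA0surj (A w) (hort A hA w)
    choose g hg using hex
    let G : V →ₗ[ℝ] V :=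
      { toFun := g
        map_add' := by
          intro a b
          apply hA0inj'
          rw [hg, map_add, map_add, hg, hg]
        map_smul' := by
          intro a b
          apply hA0inj'
          rw [hg, map_smul, RingHom.id_apply, map_smul, hg] }
    refine ⟨t, ht, LinearMap.toContinuousLinearMap G, ?_, ?_⟩
    · intro w
      show φ (g w) = φ w
      rw [← hA0.1 (g w), hg, hA.1]
    · apply hA0inj'
      show A0 p.2 = A0 (t • (g v + w0))
      rw [map_smul, map_add, hg, hw0, h2]
  · rw [Measure.prod_prod, hcone, mul_zero]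

end Pool.Agent.BAN.H51
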