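import Pool.Agent.Helper10_BAN.Stmt

set_option autoImplicit false

/-! Squad BAN, module TR: Lipschitz transport. -/

namespace Pool.Agent.BAN.H51

open MeasureTheory Filter Topology Set
open scoped NNReal

section Aux

variable {𝕜 : Type} [RCLike 𝕜] {V X : Type} [NormedAddCommGroup V] [InnerProductSpace 𝕜 V]
  [NormedAddCommGroup X] [InnerProductSpace 𝕜 X]

theorem norm_le_one_of_iso {g : V →L[𝕜] V} (hg : ∀ v, ‖g v‖ = ‖v‖) : ‖g‖ ≤ 1 :=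
  g.opNorm_le_bound zero_le_one (fun v => by rw [hg v, one_mul])

theorem PP_comp {φ : Seminorm 𝕜 V} {Φ : Seminorm 𝕜 X} {ν : X} {A : V →L[𝕜] X}
    (hA : A ∈ PP φ Φ ν) {κ : V →L[𝕜] V} (hκ : κ ∈ SymG φ) : A.comp κ ∈ PP φ Φ ν := by
  refine ⟨fun v => ?_, fun v => ?_⟩
  · rw [ContinuousLinearMap.comp_apply, hA.1, hκ v]
  · rw [ContinuousLinearMap.comp_apply, hA.2]

/-- Two maps which agree on the range and on its orthogonal complement agree. -/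
theorem ext_range [FiniteDimensional 𝕜 V] {W : Type} [AddCommGroup W] [Module 𝕜 W] [TopologicalSpace W]
    (A : V →L[𝕜] X) (S T : X →L[𝕜] W)
    (h1 : ∀ v, S (A v) = T (A v))
    (h2 : ∀ x, (∀ v, inner 𝕜 (A v) x = 0) → S x = T x) : S = T := by
  ext x
  let M : Submodule 𝕜 X := LinearMap.range (A : V →ₗ[𝕜] X)
  obtain ⟨y, hy, z, hz, hxyz⟩ := M.exists_add_mem_mem_orthogonal x
  obtain ⟨v, hv⟩ := hy
  have hv' : A v = y := hv
  rw [hxyz, map_add, map_add, ← hv', h1 v]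
  congr 1
  apply h2
  intro w
  exact (Submodule.mem_orthogonal M z).1 hz (A w) ⟨w, rfl⟩

end Aux

theorem tr (hNP : NPStmt) (hPINV : PINVStmt) (hNEAR : NEARStmt) (hBAS : BASStmt) : TRStmt := by
  intro 𝕜 _ V X _ _ _ _ _ _ φ Φ hD
  obtain ⟨hK, c, C, hc, hC, hφ, hΦ, hPPb, hPPs⟩ := hBAS 𝕜 V X φ Φ hD
  obtain ⟨LR, R, hLR, hR, hRL⟩ := hPINV 𝕜 V X c C hc
  have hRp : ∀ (ν : X) (A : V →L[𝕜] X), ‖ν‖ = 1 → A ∈ PP φ Φ ν →
        (∀ v, R A (A v) = v) ∧ (∀ x, (∀ v, inner 𝕜 (A v) x = 0) → R A x = 0) ∧ ‖R A‖ ≤ LR := by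
    intro ν A _ hA
    exact hR A (hPPb ν A hA).1 (hPPb ν A hA).2
  obtain ⟨CN, hCN, hN⟩ := hNEAR 𝕜 V X φ Φ hD LR R hRp
  obtain ⟨r, LK, kh, hr, hLK, hkh, hkhL, hkhE⟩ := hNP 𝕜 V (SymG φ) hK
  classical
  let B : X → (V →L[𝕜] X) := fun ν => if h : ‖ν‖ = 1 then (hD.non ν h).choose else 0
  have hB : ∀ ν, ‖ν‖ = 1 → B ν ∈ PP φ Φ ν := by
    intro ν hν
    have : B ν = (hD.non ν hν).choose := by simp only [B, dif_pos hν]
    rw [this]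
    exact (hD.non ν hν).choose_spec
  have hρ : 0 < r / (CN + 1) := by positivity
  have hρr : ∀ a : ℝ, a ≤ r / (CN + 1) → CN * a ≤ r := by
    intro a ha
    have h1 : CN * a ≤ CN * (r / (CN + 1)) := mul_le_mul_of_nonneg_left ha hCN
    have h2 : CN * (r / (CN + 1)) ≤ (CN + 1) * (r / (CN + 1)) :=
      mul_le_mul_of_nonneg_right (by linarith) hρ.le
    have h3 : (CN + 1) * (r / (CN + 1)) = r := by field_simp
    linarith
  -- the map is near the group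
  have hnear : ∀ (ν ν' : X) (A A' : V →L[𝕜] X), ‖ν‖ = 1 → ‖ν'‖ = 1 →
      ‖ν - ν'‖ ≤ r / (CN + 1) → A ∈ PP φ Φ ν → A' ∈ PP φ Φ ν' →
      Near (SymG φ) r ((R A').comp A) := by
    intro ν ν' A A' hν hν' hd hA hA'
    obtain ⟨κ, hκ, h1, -, -⟩ := hN ν ν' A A' hν hν' hA hA'
    exact ⟨κ, hκ, h1.trans (hρr _ hd)⟩
  refine ⟨r / (CN + 1), CN + C * LK * (LR * CN * C + LR) , fun ν' A =>
    (B ν').comp (kh ((R (B ν')).comp A)), hρ, by positivity, ?_, ?_⟩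
  · intro ν ν' hν hν' hd A hA
    exact PP_comp (hB ν' hν') (hkh _ (hnear ν ν' A (B ν') hν hν' hd hA (hB ν' hν')))
  · intro ν₁ ν₁' ν₂ ν₂' hν₁ hν₁' hν₂ hν₂' hd₁ hd₂ A₁ hA₁ A₂ hA₂
    have hB₁ := hB ν₁' hν₁'
    have hB₂ := hB ν₂' hν₂'
    obtain ⟨κ, hκ, -, hκd, hκP⟩ := hN ν₁' ν₂' (B ν₁') (B ν₂') hν₁' hν₂' hB₁ hB₂
    obtain ⟨κi, hκi, hiκ, hκi'⟩ := hK.inv κ hκ
    -- R (B₂ κ) = κ⁻¹ R B₂
    have hRk : R ((B ν₂').comp κ) = κi.comp (R (B ν₂')) := by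
      apply ext_range ((B ν₂').comp κ)
      · intro v
        rw [(hRp ν₂' _ hν₂' hκP).1 v]
        rw [ContinuousLinearMap.comp_apply, ContinuousLinearMap.comp_apply,
          (hRp ν₂' _ hν₂' hB₂).1]
        have := congrArg (fun g : V →L[𝕜] V => g v) hiκ
        simpa using this.symm
      · intro x hx
        rw [(hRp ν₂' _ hν₂' hκP).2.1 x hx, ContinuousLinearMap.comp_apply,
          (hRp ν₂' _ hν₂' hB₂).2.1 x, map_zero]
        intro v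
        have h1 := hx (κi v)
        rw [ContinuousLinearMap.comp_apply] at h1
        have h2 : κ (κi v) = v := by
          have := congrArg (fun g : V →L[𝕜] V => g v) hκi'
          simpa using this
        rwa [h2] at h1
    have hN₁ := hnear ν₁ ν₁' A₁ (B ν₁') hν₁ hν₁' hd₁ hA₁ hB₁
    have hN₂ := hnear ν₂ ν₂' A₂ (B ν₂') hν₂ hν₂' hd₂ hA₂ hB₂
    have hN₂' := hnear ν₂ ν₂' A₂ ((B ν₂').comp κ) hν₂ hν₂' hd₂ hA₂ hκP
    have hkh₂ : kh ((R ((B ν₂').comp κ)).comp A₂) = κi * kh ((R (B ν₂')).comp A₂) := by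
      rw [hRk, ← hkhE _ hN₂ κi hκi]
      rfl
    have hT₂ : (B ν₂').comp (kh ((R (B ν₂')).comp A₂)) =
        ((B ν₂').comp κ).comp (kh ((R ((B ν₂').comp κ)).comp A₂)) := by
      rw [hkh₂]
      ext v
      simp only [ContinuousLinearMap.comp_apply, mul_apply_eq_comp]
      have := congrArg (fun g : V →L[𝕜] V => g ((kh ((R (B ν₂')).comp A₂)) v)) hκi'
      simp only [mul_apply_eq_comp, one_apply_eq_self] at this
      rw [this]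
    show ‖(B ν₁').comp (kh ((R (B ν₁')).comp A₁)) - (B ν₂').comp (kh ((R (B ν₂')).comp A₂))‖ ≤ _
    rw [hT₂]
    set B₁ := B ν₁' with hB₁def
    set B₂ := (B ν₂').comp κ with hB₂def
    set k₁ := kh ((R B₁).comp A₁) with hk₁
    set k₂ := kh ((R B₂).comp A₂) with hk₂
    have e1 : B₁.comp k₁ - B₂.comp k₂ = (B₁ - B₂).comp k₁ + B₂.comp (k₁ - k₂) := by
      ext v
      simp [ContinuousLinearMap.comp_apply]
    have e2 : (R B₁).comp A₁ - (R B₂).comp A₂ =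
        (R B₁ - R B₂).comp A₁ + (R B₂).comp (A₁ - A₂) := by
      ext v
      simp [ContinuousLinearMap.comp_apply]
    have hk₁n : ‖k₁‖ ≤ 1 := norm_le_one_of_iso (hK.iso _ (hkh _ hN₁))
    have hkk : ‖k₁ - k₂‖ ≤ LK * ‖(R B₁).comp A₁ - (R B₂).comp A₂‖ := hkhL _ _ hN₁ hN₂'
    have hRR : ‖R B₁ - R B₂‖ ≤ LR * ‖B₁ - B₂‖ :=
      hRL B₁ B₂ (hPPb ν₁' B₁ hB₁).1 (hPPb ν₁' B₁ hB₁).2 (hPPb ν₂' B₂ hκP).1 (hPPb ν₂' B₂ hκP).2
    have hB₂n : ‖B₂‖ ≤ C := (hPPb ν₂' B₂ hκP).2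
    have hRB₂ : ‖R B₂‖ ≤ LR := (hRp ν₂' B₂ hν₂' hκP).2.2
    have hA₁n : ‖A₁‖ ≤ C := (hPPb ν₁ A₁ hA₁).2
    have hBB : ‖B₁ - B₂‖ ≤ CN * ‖ν₁' - ν₂'‖ := hκd
    have n0 : 0 ≤ ‖ν₁' - ν₂'‖ := norm_nonneg _
    have n1 : 0 ≤ ‖A₁ - A₂‖ := norm_nonneg _
    have s1 : ‖(R B₁).comp A₁ - (R B₂).comp A₂‖ ≤
        LR * (CN * ‖ν₁' - ν₂'‖) * C + LR * ‖A₁ - A₂‖ := by
      rw [e2]
      refine (norm_add_le _ _).trans (add_le_add ?_ ?_)
      · refine (ContinuousLinearMap.opNorm_comp_le _ _).trans ?_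
        refine mul_le_mul (hRR.trans (mul_le_mul_of_nonneg_left hBB hLR)) hA₁n (norm_nonneg _) ?_
        positivity
      · refine (ContinuousLinearMap.opNorm_comp_le _ _).trans ?_
        exact mul_le_mul_of_nonneg_right hRB₂ n1
    have s2 : ‖k₁ - k₂‖ ≤ LK * (LR * (CN * ‖ν₁' - ν₂'‖) * C + LR * ‖A₁ - A₂‖) :=
      hkk.trans (mul_le_mul_of_nonneg_left s1 hLK)
    have s3 : ‖B₁.comp k₁ - B₂.comp k₂‖ ≤
        CN * ‖ν₁' - ν₂'‖ * 1 + C * (LK * (LR * (CN * ‖ν₁' - ν₂'‖) * C + LR * ‖A₁ - A₂‖)) := by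
      rw [e1]
      refine (norm_add_le _ _).trans (add_le_add ?_ ?_)
      · refine (ContinuousLinearMap.opNorm_comp_le _ _).trans ?_
        exact mul_le_mul hBB hk₁n (norm_nonneg _) (by positivity)
      · refine (ContinuousLinearMap.opNorm_comp_le _ _).trans ?_
        exact mul_le_mul hB₂n s2 (norm_nonneg _) hC.le
    refine s3.trans ?_
    have t1 : 0 ≤ CN * ‖A₁ - A₂‖ := by positivity
    have t2 : 0 ≤ C * LK * LR * ‖ν₁' - ν₂'‖ := by positivity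
    have t3 : 0 ≤ C * LK * (LR * CN * C) * ‖A₁ - A₂‖ := by positivity
    nlinarith [t1, t2, t3]

end Pool.Agent.BAN.H51
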