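import Pool.Agent.Helper10_BAN.Stmt

set_option autoImplicit false

/-! Squad BAN, module CAP: the image of the cap is null. -/

namespace Pool.Agent.BAN.H51

open MeasureTheory Filter Topology Set
open scoped NNReal

section Aux

variable {𝕜 : Type} [RCLike 𝕜] {X : Type} [NormedAddCommGroup X] [InnerProductSpace 𝕜 X]
  [FiniteDimensional 𝕜 X] [MeasurableSpace X] [BorelSpace X]

/-- The real hyperplane of the vectors whose product with `e` is real is null, if `𝕜` has a
non-real element. -/
theorem null_im (μ : Measure X) [μ.IsAddHaarMeasure] (e : X) (he : ‖e‖ = 1) (z : 𝕜)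
    (hz : RCLike.im z ≠ 0) : μ {x : X | RCLike.im (inner 𝕜 e x) = 0} = 0 := by
  let _i : NormedSpace ℝ X := NormedSpace.restrictScalars ℝ 𝕜 X
  have : FiniteDimensional ℝ X := FiniteDimensional.trans ℝ 𝕜 X
  have hsm : ∀ (r : ℝ) (x : X), r • x = ((r : ℝ) : 𝕜) • x := fun r x => rfl
  let M : Submodule ℝ X :=
    { carrier := {x : X | RCLike.im (inner 𝕜 e x) = 0}
      zero_mem' := by simp
      add_mem' := by
        intro a b ha hb
        simp only [mem_ofPred_eq] at ha hb ⊢
        rw [inner_add_right, map_add, ha, hb, add_zero]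
      smul_mem' := by
        intro r a ha
        simp only [mem_ofPred_eq] at ha ⊢
        rw [hsm, inner_smul_right, RCLike.im_ofReal_mul, ha, mul_zero] }
  have hM : M ≠ ⊤ := by
    intro h
    have h1 : z • e ∈ M := by rw [h]; trivial
    have h2 : RCLike.im (inner 𝕜 e (z • e)) = 0 := h1
    rw [inner_smul_right, inner_self_eq_norm_sq_to_K, he] at h2
    simp at h2
    exact hz h2
  exact Measure.addHaar_submodule μ M hM

/-- Images of null sets under real linear isomorphisms, in the form needed. -/
theorem null_of_preimage {E F : Type} [NormedAddCommGroup E] [NormedSpace ℝ E]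
    [FiniteDimensional ℝ E] [MeasurableSpace E] [BorelSpace E] [NormedAddCommGroup F]
    [NormedSpace ℝ F] [FiniteDimensional ℝ F] [MeasurableSpace F] [BorelSpace F]
    (L : E ≃L[ℝ] F) (m : Measure E) [m.IsAddHaarMeasure] (μ : Measure F) [μ.IsAddHaarMeasure]
    (S : Set F) (h : m (L ⁻¹' S) = 0) : μ S = 0 := by
  have : (m.map L).IsAddHaarMeasure := ContinuousLinearEquiv.isAddHaarMeasure_map L m
  have h1 : μ ≪ m.map L := Measure.absolutelyContinuous_isAddHaarMeasure μ (m.map L)
  apply h1
  have h2 := (L.toHomeomorph.toMeasurableEquiv).map_apply (μ := m) S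
  have h3 : m.map (L.toHomeomorph.toMeasurableEquiv) = m.map L := rfl
  rw [h3] at h2
  rw [h2]
  exact h

end Aux

theorem cap (hORB : ORBStmt) (hBAS : BASStmt) : CAPStmt := by
  intro 𝕜 _ V X _ _ _ _ _ _ _ _ μ _ φ Φ hD e v he hor
  obtain ⟨hK, c, C, hc, hC, hφ, hΦ, hPPb, hPPs⟩ := hBAS 𝕜 V X φ Φ hD
  have hee : inner 𝕜 e e = (1 : 𝕜) := by
    rw [inner_self_eq_norm_sq_to_K, he]; simp
  have hort : ∀ A ∈ PP φ Φ (-e), ∀ w, inner 𝕜 e (A w) = (0 : 𝕜) := by
    intro A hA w
    have := hA.2 w
    rwa [inner_neg_left, neg_eq_zero] at this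
  by_cases him : ∃ z : 𝕜, RCLike.im z ≠ 0
  · obtain ⟨z, hz⟩ := him
    refine measure_mono_null ?_ (null_im μ e he z hz)
    rintro x ⟨r, t, A, hA, rfl⟩
    simp only [mem_ofPred_eq]
    rw [inner_add_right, inner_smul_right, inner_smul_right, hee, hort A hA v]
    simp
  · have hu := hor.resolve_left him
    push Not at him
    have hre : ∀ z : 𝕜, ((RCLike.re z : ℝ) : 𝕜) = z := by
      intro z
      apply RCLike.ext <;> simp [him z]
    let _i : NormedSpace ℝ V := NormedSpace.restrictScalars ℝ 𝕜 V
    have : FiniteDimensional ℝ V := FiniteDimensional.trans ℝ 𝕜 V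
    let _i : NormedSpace ℝ X := NormedSpace.restrictScalars ℝ 𝕜 X
    have : FiniteDimensional ℝ X := FiniteDimensional.trans ℝ 𝕜 X
    let _i : MeasurableSpace V := borel V
    have : BorelSpace V := ⟨rfl⟩
    have : ProperSpace V := FiniteDimensional.proper ℝ V
    have hsmV : ∀ (r : ℝ) (x : V), r • x = ((r : ℝ) : 𝕜) • x := fun r x => rfl
    have hsmX : ∀ (r : ℝ) (x : X), r • x = ((r : ℝ) : 𝕜) • x := fun r x => rfl
    have hCo := hORB 𝕜 V (Measure.addHaar : Measure V) (SymG φ) v hK hu
    obtain ⟨A0, hA0⟩ := hD.non (-e) (by rw [norm_neg, he])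
    have hA0inj : ∀ w, A0 w = 0 → w = 0 := by
      intro w hw
      have h1 := (hPPb (-e) A0 hA0).1 w
      rw [hw, norm_zero] at h1
      have h2 : ‖w‖ ≤ 0 := by
        by_contra h
        push Not at h
        have := mul_pos hc h
        linarith
      exact norm_le_zero_iff.1 h2
    have he0 : -e ≠ 0 := by
      intro h
      have : ‖e‖ = 0 := by rw [← norm_neg, h, norm_zero]
      rw [he] at this
      exact one_ne_zero this
    have hA0surj : ∀ x, inner 𝕜 e x = (0 : 𝕜) → ∃ w, A0 w = x := by
      intro x hx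
      exact hPPs (-e) A0 he0 hA0 x (by rw [inner_neg_left, hx, neg_zero])
    let f : ℝ × V →ₗ[ℝ] X :=
      { toFun := fun p => ((p.1 : ℝ) : 𝕜) • e + A0 p.2
        map_add' := by
          intro p q
          simp only [Prod.fst_add, Prod.snd_add, add_smul, map_add]
          abel
        map_smul' := by
          intro r p
          simp only [Prod.smul_fst, Prod.smul_snd, smul_eq_mul, RCLike.ofReal_mul,
            RingHom.id_apply, hsmX, hsmV, map_smul, smul_add, mul_smul] }
    have hf : ∀ p, f p = ((p.1 : ℝ) : 𝕜) • e + A0 p.2 := fun p => rfl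
    have hfin : ∀ p, inner 𝕜 e (f p) = ((p.1 : ℝ) : 𝕜) := by
      intro p
      rw [hf, inner_add_right, inner_smul_right, hee, hort A0 hA0, mul_one, add_zero]
    have hbij : Function.Bijective f := by
      constructor
      · rw [← LinearMap.ker_eq_bot, LinearMap.ker_eq_bot']
        intro p hp
        have h1 := hfin p
        rw [hp, inner_zero_right] at h1
        have h2 : p.1 = 0 := by
          have := h1.symm
          exact_mod_cast this
        have h3 := hf p
        rw [hp, h2, RCLike.ofReal_zero, zero_smul, zero_add] at h3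
        exact Prod.ext h2 (hA0inj _ h3.symm)
      · intro x
        obtain ⟨w, hw⟩ := hA0surj (x - (inner 𝕜 e x : 𝕜) • e) (by
          rw [inner_sub_right, inner_smul_right, hee, mul_one, sub_self])
        refine ⟨(RCLike.re (inner 𝕜 e x : 𝕜), w), ?_⟩
        rw [hf]
        show ((RCLike.re (inner 𝕜 e x : 𝕜) : ℝ) : 𝕜) • e + A0 w = x
        rw [hre, hw]
        abel
    let L : (ℝ × V) ≃L[ℝ] X := (LinearEquiv.ofBijective f hbij).toContinuousLinearEquiv
    have hL : ∀ p, L p = f p := fun p => rfl
    apply null_of_preimage L ((volume : Measure ℝ).prod (Measure.addHaar : Measure V)) μ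
    refine measure_mono_null (t := (univ : Set ℝ) ×ˢ
      {x : V | ∃ t : ℝ, ∃ κ ∈ SymG φ, x = ((t : ℝ) : 𝕜) • κ v}) ?_ ?_
    · rintro p ⟨r, t, A, hA, hp⟩
      refine ⟨trivial, ?_⟩
      rw [hL] at hp
      have h1 := hfin p
      rw [hp, inner_add_right, inner_smul_right, inner_smul_right, hee, hort A hA v, mul_one,
        mul_zero, add_zero] at h1
      have h2 : A0 p.2 = ((t : ℝ) : 𝕜) • A v := by
        have h3 := hf p
        rw [hp, ← h1] at h3
        exact (add_left_cancel h3).symm
      -- the element of the group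
      have hex : ∀ w, ∃ u, A0 u = A w := fun w => hA0surj (A w) (hort A hA w)
      choose g hg using hex
      have hA0inj' : ∀ a b, A0 a = A0 b → a = b := by
        intro a b hab
        have := hA0inj (a - b) (by rw [map_sub, hab, sub_self])
        exact sub_eq_zero.1 this
      let G : V →ₗ[𝕜] V :=
        { toFun := g
          map_add' := by
            intro a b
            apply hA0inj'
            rw [hg, map_add, map_add, hg, hg]
          map_smul' := by
            intro a b
            apply hA0inj'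
            rw [hg, map_smul, RingHom.id_apply, map_smul, hg] }
      refine ⟨t, LinearMap.toContinuousLinearMap G, ?_, ?_⟩
      · intro w
        show φ (g w) = φ w
        rw [← hA0.1 (g w), hg, hA.1]
      · apply hA0inj'
        show A0 p.2 = A0 (((t : ℝ) : 𝕜) • g v)
        rw [map_smul, hg, h2]
    · rw [Measure.prod_prod, hCo, mul_zero]

end Pool.Agent.BAN.H51
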